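import Pool.Agent.WAR.StmtsB

/-!
# WAR, row BFI (helper95): the closure of the rational points of the open surface
-/

set_option autoImplicit false

namespace Pool.Agent.WAR.H95

open Pool.Agent.WAR Classical

attribute [local instance] primesFact

variable [Par]

theorem bfi (hblo : BloStmt) (hbwa : BwaStmt) (hfin : FinStmt) : BfiStmt := by
  intro P hP x xR hx
  have hloc : ∀ p : P, IsLoc ℚ_[(p.1 : ℕ)] ((p.1 : ℕ) : ℤ) := fun p => hblo _ (hP p.1 p.2)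
  have hne : ∀ v w : P, v ≠ w → (((v.1 : ℕ) : ℤ)) ≠ ((w.1 : ℕ) : ℤ) := by
    intro v w hvw h
    apply hvw
    apply Subtype.ext
    apply Subtype.ext
    exact_mod_cast h
  have hfam : IsFam (fun p : P => ℚ_[(p.1 : ℕ)]) (fun p : P => ((p.1 : ℕ) : ℤ)) :=
    ⟨hloc, hne⟩
  -- the point is in the closure
  rw [mem_closure_iff]
  intro U hU hz
  obtain ⟨A, B, hA, hB, hzA, hzB, hAB⟩ := isOpen_prod_iff.1 hU x xR hz
  obtain ⟨S, V, hV, hVA⟩ := isOpen_pi_iff.1 hA x hzA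
  -- open sets upstairs
  have hV' : ∀ v : P, ∃ O : Set (ℚ_[(v.1 : ℕ)] × ℚ_[(v.1 : ℕ)] × ℚ_[(v.1 : ℕ)]), v ∈ S → IsOpen O ∧
      Subtype.val ⁻¹' O = V v := by
    intro v
    by_cases hv : v ∈ S
    · obtain ⟨O, hO, hOV⟩ := isOpen_induced_iff.1 (hV v hv).1
      exact ⟨O, fun _ => ⟨hO, hOV⟩⟩
    · exact ⟨∅, fun h => absurd h hv⟩
  choose O hO using hV'
  obtain ⟨OC, hOC, hOCB⟩ := isOpen_induced_iff.1 hB
  obtain ⟨z, hzU, hzS, hzC⟩ := hfin P (fun p : P => ℚ_[(p.1 : ℕ)])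
    (fun p : P => ((p.1 : ℕ) : ℤ)) ℚ (fun p : P => algebraMap ℚ ℚ_[(p.1 : ℕ)]) (algebraMap ℚ ℝ) hfam S
    (fun T TC hT hTCo hTCn => hbwa P (fun p : P => ℚ_[(p.1 : ℕ)]) (fun p : P => ((p.1 : ℕ) : ℤ))
      (fun p : P => algebraMap ℚ ℚ_[(p.1 : ℕ)]) (algebraMap ℚ ℝ) S (fun v _ => hloc v)
      (fun v _ w _ hvw => hne v w hvw) T TC hT hTCo hTCn)
    O OC
    (fun v hv => ⟨(hO v hv).1, (x v).1, by
      have h1 : x v ∈ Subtype.val ⁻¹' O v := by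
        rw [(hO v hv).2]
        exact (hV v hv).2
      exact h1, hx v⟩)
    hOC ⟨xR.1, by
      have h1 : xR ∈ Subtype.val ⁻¹' OC := by
        rw [hOCB]
        exact hzB
      exact h1, xR.2⟩
  refine ⟨_, hAB ?_, ⟨⟨z, hzU⟩, rfl⟩⟩
  refine Set.mk_mem_prod (hVA ?_) ?_
  · intro v hv
    rw [← (hO v hv).2]
    exact hzS v hv
  · rw [← hOCB]
    exact hzC

end Pool.Agent.WAR.H95
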